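import Mathlib

set_option autoImplicit false

namespace Pool.Agent.Results.MP_2a9801_co.DegreeFive
open Finset MvPolynomial

/-- A matching of G: a finite set of edges of G, no two of which share a vertex. -/
def IsMat {V : Type} (G : SimpleGraph V) (M : Finset (Sym2 V)) : Prop :=
  (∀ e ∈ M, e ∈ G.edgeSet) ∧ ∀ e ∈ M, ∀ f ∈ M, e ≠ f → ∀ v : V, v ∈ e → v ∉ f

/-- The toric map of the matching polytope: the variable of a matching M goes to the product of
the variables t_e (e in M) times the variable s. -/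
noncomputable def toricMap (K : Type) [Field K] {V : Type} (G : SimpleGraph V) :
    MvPolynomial {M : Finset (Sym2 V) // IsMat G M} K →ₐ[K] MvPolynomial (Option (Sym2 V)) K :=
  MvPolynomial.aeval (fun M => (∏ e ∈ M.1, MvPolynomial.X (some e)) * MvPolynomial.X none)

def EG : Finset (Sym2 (Fin 10)) :=
  {s(0, 1), s(0, 2), s(0, 3), s(1, 5), s(1, 7), s(2, 3), s(2, 4), s(2, 8), s(3, 6), s(3, 9), s(4, 5), s(4, 6), s(5, 9), s(6, 7), s(7, 8), s(8, 9)}

def G0 : SimpleGraph (Fin 10) := SimpleGraph.fromEdgeSet (EG : Set (Sym2 (Fin 10)))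

abbrev Mat : Type := {M : Finset (Sym2 (Fin 10)) // IsMat G0 M}

theorem mk_mat (M : Finset (Sym2 (Fin 10))) (h1 : ∀ e ∈ M, e ∈ EG ∧ ¬ e.IsDiag)
    (h2 : ∀ e ∈ M, ∀ f ∈ M, e ≠ f → ∀ v : Fin 10, v ∈ e → v ∉ f) : IsMat G0 M := by
  refine ⟨fun e he => ?_, h2⟩
  rw [G0, SimpleGraph.edgeSet_fromEdgeSet]
  exact ⟨(h1 e he).1, (h1 e he).2⟩

def P0 : Mat := ⟨{s(0, 1), s(2, 3), s(4, 5), s(6, 7), s(8, 9)},
  mk_mat _ (by decide +kernel) (by decide +kernel)⟩

def P1 : Mat := ⟨{s(0, 1), s(2, 3), s(4, 6), s(5, 9), s(7, 8)},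
  mk_mat _ (by decide +kernel) (by decide +kernel)⟩

def P2 : Mat := ⟨{s(0, 1), s(2, 4), s(3, 6), s(5, 9), s(7, 8)},
  mk_mat _ (by decide +kernel) (by decide +kernel)⟩

def P3 : Mat := ⟨{s(0, 1), s(2, 8), s(3, 9), s(4, 5), s(6, 7)},
  mk_mat _ (by decide +kernel) (by decide +kernel)⟩

def P4 : Mat := ⟨{s(0, 2), s(1, 5), s(3, 9), s(4, 6), s(7, 8)},
  mk_mat _ (by decide +kernel) (by decide +kernel)⟩

def P5 : Mat := ⟨{s(0, 2), s(1, 7), s(3, 6), s(4, 5), s(8, 9)},
  mk_mat _ (by decide +kernel) (by decide +kernel)⟩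

def P6 : Mat := ⟨{s(0, 3), s(1, 5), s(2, 4), s(6, 7), s(8, 9)},
  mk_mat _ (by decide +kernel) (by decide +kernel)⟩

def P7 : Mat := ⟨{s(0, 3), s(1, 7), s(2, 8), s(4, 6), s(5, 9)},
  mk_mat _ (by decide +kernel) (by decide +kernel)⟩

def ind (M : Mat) (e : Sym2 (Fin 10)) : ℕ := if e ∈ M.1 then 1 else 0

def two (M : Mat) (e f : Sym2 (Fin 10)) : ℕ := if e ∈ M.1 ∧ f ∈ M.1 then 1 else 0

theorem ind_le (M : Mat) (e : Sym2 (Fin 10)) : ind M e ≤ 1 := by
  unfold ind; split_ifs <;> omega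

theorem two_lin (M : Mat) (e f : Sym2 (Fin 10)) :
    two M e f ≤ ind M e ∧ two M e f ≤ ind M f ∧ ind M e + ind M f ≤ two M e f + 1 := by
  unfold ind two
  by_cases h1 : e ∈ M.1 <;> by_cases h2 : f ∈ M.1 <;> simp [h1, h2]

theorem excl (M : Mat) (e f : Sym2 (Fin 10)) (v : Fin 10) (h : e ≠ f ∧ v ∈ e ∧ v ∈ f) :
    ind M e + ind M f ≤ 1 := by
  unfold ind
  by_cases h1 : e ∈ M.1 <;> by_cases h2 : f ∈ M.1 <;> simp [h1, h2]
  exact M.2.2 e h1 f h2 h.1 v h.2.1 h.2.2

noncomputable def wt (M : Mat) : Option (Sym2 (Fin 10)) →₀ ℕ :=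
  (∑ e ∈ M.1, Finsupp.single (some e) 1) + Finsupp.single none 1

theorem wt_some (M : Mat) (e : Sym2 (Fin 10)) : wt M (some e) = ind M e := by
  simp [wt, ind, Finsupp.finsetSum_apply, Finsupp.single_apply]

theorem wt_none (M : Mat) : wt M none = 1 := by
  simp [wt, Finsupp.finsetSum_apply]

noncomputable def W (m : Mat →₀ ℕ) : Option (Sym2 (Fin 10)) →₀ ℕ := ∑ M ∈ m.support, m M • wt M

theorem W_add (m n : Mat →₀ ℕ) : W (m + n) = W m + W n :=
  Finsupp.sum_add_index' (f := m) (g := n) (h := fun M k => k • wt M) (fun _ => zero_smul _ _)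
    (fun _ _ _ => add_smul _ _ _)

theorem W_single (M : Mat) (k : ℕ) : W (Finsupp.single M k) = k • wt M :=
  Finsupp.sum_single_index (h := fun M k => k • wt M) (zero_smul _ _)

theorem W_some (m : Mat →₀ ℕ) (e : Sym2 (Fin 10)) :
    W m (some e) = ∑ M ∈ m.support, m M * ind M e := by
  simp [W, Finsupp.finsetSum_apply, wt_some]

theorem W_none (m : Mat →₀ ℕ) : W m none = ∑ M ∈ m.support, m M := by
  simp [W, Finsupp.finsetSum_apply, wt_none]

noncomputable def m1 : Mat →₀ ℕ :=
  Finsupp.single P0 2 + Finsupp.single P2 1 + Finsupp.single P4 1 + Finsupp.single P7 1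
noncomputable def m2 : Mat →₀ ℕ :=
  Finsupp.single P1 2 + Finsupp.single P3 1 + Finsupp.single P5 1 + Finsupp.single P6 1

theorem W1_some (e : Sym2 (Fin 10)) :
    W m1 (some e) = 2 * ind P0 e + ind P2 e + ind P4 e + ind P7 e := by
  simp [m1, W_add, W_single, wt_some]

theorem W1_none : W m1 none = 5 := by
  simp [m1, W_add, W_single, wt_none]

theorem W21 : W m2 = W m1 := by
  ext x
  cases x with
  | none => simp [m1, m2, W_add, W_single, wt_none]
  | some e =>
    rw [W1_some]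
    simp only [m2, W_add, W_single, Finsupp.add_apply, Finsupp.smul_apply, wt_some, smul_eq_mul,
      one_mul]
    revert e
    decide +kernel

def good (M : Mat) : Prop :=
  two M s(2, 3) s(4, 5) + two M s(2, 4) s(3, 6) + two M s(0, 2) s(1, 5) + two M s(0, 3) s(1, 7) = 1

instance (M : Mat) : Decidable (good M) := by unfold good; infer_instance

theorem deg0 (M : Mat) : ind M s(0, 1) + ind M s(0, 2) + ind M s(0, 3) ≤ 1 := by
  have := excl M s(0, 1) s(0, 2) 0 (by decide)
  have := excl M s(0, 1) s(0, 3) 0 (by decide)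
  have := excl M s(0, 2) s(0, 3) 0 (by decide)
  omega

theorem deg1 (M : Mat) : ind M s(0, 1) + ind M s(1, 5) + ind M s(1, 7) ≤ 1 := by
  have := excl M s(0, 1) s(1, 5) 1 (by decide)
  have := excl M s(0, 1) s(1, 7) 1 (by decide)
  have := excl M s(1, 5) s(1, 7) 1 (by decide)
  omega

theorem deg2 (M : Mat) : ind M s(0, 2) + ind M s(2, 3) + ind M s(2, 4) + ind M s(2, 8) ≤ 1 := by
  have := excl M s(0, 2) s(2, 3) 2 (by decide)
  have := excl M s(0, 2) s(2, 4) 2 (by decide)
  have := excl M s(0, 2) s(2, 8) 2 (by decide)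
  have := excl M s(2, 3) s(2, 4) 2 (by decide)
  have := excl M s(2, 3) s(2, 8) 2 (by decide)
  have := excl M s(2, 4) s(2, 8) 2 (by decide)
  omega

theorem deg3 (M : Mat) : ind M s(0, 3) + ind M s(2, 3) + ind M s(3, 6) + ind M s(3, 9) ≤ 1 := by
  have := excl M s(0, 3) s(2, 3) 3 (by decide)
  have := excl M s(0, 3) s(3, 6) 3 (by decide)
  have := excl M s(0, 3) s(3, 9) 3 (by decide)
  have := excl M s(2, 3) s(3, 6) 3 (by decide)
  have := excl M s(2, 3) s(3, 9) 3 (by decide)
  have := excl M s(3, 6) s(3, 9) 3 (by decide)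
  omega

theorem deg4 (M : Mat) : ind M s(2, 4) + ind M s(4, 5) + ind M s(4, 6) ≤ 1 := by
  have := excl M s(2, 4) s(4, 5) 4 (by decide)
  have := excl M s(2, 4) s(4, 6) 4 (by decide)
  have := excl M s(4, 5) s(4, 6) 4 (by decide)
  omega

theorem deg5 (M : Mat) : ind M s(1, 5) + ind M s(4, 5) + ind M s(5, 9) ≤ 1 := by
  have := excl M s(1, 5) s(4, 5) 5 (by decide)
  have := excl M s(1, 5) s(5, 9) 5 (by decide)
  have := excl M s(4, 5) s(5, 9) 5 (by decide)
  omega

theorem deg6 (M : Mat) : ind M s(3, 6) + ind M s(4, 6) + ind M s(6, 7) ≤ 1 := by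
  have := excl M s(3, 6) s(4, 6) 6 (by decide)
  have := excl M s(3, 6) s(6, 7) 6 (by decide)
  have := excl M s(4, 6) s(6, 7) 6 (by decide)
  omega

theorem deg7 (M : Mat) : ind M s(1, 7) + ind M s(6, 7) + ind M s(7, 8) ≤ 1 := by
  have := excl M s(1, 7) s(6, 7) 7 (by decide)
  have := excl M s(1, 7) s(7, 8) 7 (by decide)
  have := excl M s(6, 7) s(7, 8) 7 (by decide)
  omega

theorem deg8 (M : Mat) : ind M s(2, 8) + ind M s(7, 8) + ind M s(8, 9) ≤ 1 := by
  have := excl M s(2, 8) s(7, 8) 8 (by decide)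
  have := excl M s(2, 8) s(8, 9) 8 (by decide)
  have := excl M s(7, 8) s(8, 9) 8 (by decide)
  omega

theorem deg9 (M : Mat) : ind M s(3, 9) + ind M s(5, 9) + ind M s(8, 9) ≤ 1 := by
  have := excl M s(3, 9) s(5, 9) 9 (by decide)
  have := excl M s(3, 9) s(8, 9) 9 (by decide)
  have := excl M s(5, 9) s(8, 9) 9 (by decide)
  omega

theorem types (M : Mat)
    (h0 : ind M s(0, 1) + ind M s(0, 2) + ind M s(0, 3) = 1)
    (h1 : ind M s(0, 1) + ind M s(1, 5) + ind M s(1, 7) = 1)
    (h2 : ind M s(0, 2) + ind M s(2, 3) + ind M s(2, 4) + ind M s(2, 8) = 1)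
    (h3 : ind M s(0, 3) + ind M s(2, 3) + ind M s(3, 6) + ind M s(3, 9) = 1)
    (h4 : ind M s(2, 4) + ind M s(4, 5) + ind M s(4, 6) = 1)
    (h5 : ind M s(1, 5) + ind M s(4, 5) + ind M s(5, 9) = 1)
    (h6 : ind M s(3, 6) + ind M s(4, 6) + ind M s(6, 7) = 1)
    (h7 : ind M s(1, 7) + ind M s(6, 7) + ind M s(7, 8) = 1)
    (h8 : ind M s(2, 8) + ind M s(7, 8) + ind M s(8, 9) = 1)
    (h9 : ind M s(3, 9) + ind M s(5, 9) + ind M s(8, 9) = 1)
    : (two M s(2, 3) s(4, 5) + two M s(2, 3) s(4, 6) + two M s(2, 4) s(3, 6) + two M s(2, 8) s(3, 9) + two M s(0, 2) s(1, 5) + two M s(0, 2) s(1, 7) + two M s(0, 3) s(1, 5) + two M s(0, 3) s(1, 7) = 1) ∧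
    (ind M s(2, 4) = two M s(2, 4) s(3, 6) + two M s(0, 3) s(1, 5)) ∧
    (ind M s(3, 6) = two M s(2, 4) s(3, 6) + two M s(0, 2) s(1, 7)) ∧
    (ind M s(2, 8) = two M s(2, 8) s(3, 9) + two M s(0, 3) s(1, 7)) ∧
    (ind M s(3, 9) = two M s(2, 8) s(3, 9) + two M s(0, 2) s(1, 5)) ∧
    (ind M s(0, 2) = two M s(0, 2) s(1, 5) + two M s(0, 2) s(1, 7)) ∧
    (ind M s(2, 3) = two M s(2, 3) s(4, 5) + two M s(2, 3) s(4, 6)) ∧
    (ind M s(4, 5) = two M s(2, 3) s(4, 5) + two M s(2, 8) s(3, 9) + two M s(0, 2) s(1, 7)) := by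
  have := two_lin M s(2, 3) s(4, 5)
  have := two_lin M s(2, 3) s(4, 6)
  have := two_lin M s(2, 4) s(3, 6)
  have := two_lin M s(2, 8) s(3, 9)
  have := two_lin M s(0, 2) s(1, 5)
  have := two_lin M s(0, 2) s(1, 7)
  have := two_lin M s(0, 3) s(1, 5)
  have := two_lin M s(0, 3) s(1, 7)
  have c1 := Nat.le_one_iff_eq_zero_or_eq_one.1 (ind_le M s(4, 5))
  have c2 := Nat.le_one_iff_eq_zero_or_eq_one.1 (ind_le M s(4, 6))
  have c3 := Nat.le_one_iff_eq_zero_or_eq_one.1 (ind_le M s(5, 9))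
  have c4 := Nat.le_one_iff_eq_zero_or_eq_one.1 (ind_le M s(6, 7))
  have c5 := Nat.le_one_iff_eq_zero_or_eq_one.1 (ind_le M s(7, 8))
  have c6 := Nat.le_one_iff_eq_zero_or_eq_one.1 (ind_le M s(8, 9))
  rcases c1 with c1 | c1 <;> rcases c2 with c2 | c2 <;> rcases c3 with c3 | c3 <;>
    rcases c4 with c4 | c4 <;> rcases c5 with c5 | c5 <;> rcases c6 with c6 | c6 <;> omega

theorem closed (m : Mat →₀ ℕ) (h : W m = W m1) (M0 : Mat) (h0 : M0 ∈ m.support) (g0 : good M0) :
    ∀ M ∈ m.support, good M := by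
  have hn : ∑ M ∈ m.support, m M = 5 := by rw [← W_none, h, W1_none]
  have he : ∀ e, ∑ M ∈ m.support, m M * ind M e =
      2 * ind P0 e + ind P2 e + ind P4 e + ind P7 e := fun e => by rw [← W_some, h, W1_some]
  have hfull : ∀ d : Mat → ℕ, (∀ M, d M ≤ 1) → ∑ M ∈ m.support, m M * d M = 5 →
      ∀ M ∈ m.support, d M = 1 := by
    intro d hd hs M hM
    have := (sum_eq_sum_iff_of_le (s := m.support) (f := fun M => m M * d M) (g := fun M => m M)
      (fun M _ => by have := Nat.mul_le_mul_left (m M) (hd M); omega)).1 (hs.trans hn.symm) M hM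
    have hp : 0 < m M := Nat.pos_of_ne_zero (Finsupp.mem_support_iff.1 hM)
    have h2 : m M * d M = m M * 1 := by simpa using this
    exact Nat.eq_of_mul_eq_mul_left hp h2
  have f0 := hfull (fun M => ind M s(0, 1) + ind M s(0, 2) + ind M s(0, 3)) deg0 (by
    simp only [mul_add, sum_add_distrib, he]
    decide +kernel)
  have f1 := hfull (fun M => ind M s(0, 1) + ind M s(1, 5) + ind M s(1, 7)) deg1 (by
    simp only [mul_add, sum_add_distrib, he]
    decide +kernel)
  have f2 := hfull (fun M => ind M s(0, 2) + ind M s(2, 3) + ind M s(2, 4) + ind M s(2, 8)) deg2 (by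
    simp only [mul_add, sum_add_distrib, he]
    decide +kernel)
  have f3 := hfull (fun M => ind M s(0, 3) + ind M s(2, 3) + ind M s(3, 6) + ind M s(3, 9)) deg3 (by
    simp only [mul_add, sum_add_distrib, he]
    decide +kernel)
  have f4 := hfull (fun M => ind M s(2, 4) + ind M s(4, 5) + ind M s(4, 6)) deg4 (by
    simp only [mul_add, sum_add_distrib, he]
    decide +kernel)
  have f5 := hfull (fun M => ind M s(1, 5) + ind M s(4, 5) + ind M s(5, 9)) deg5 (by
    simp only [mul_add, sum_add_distrib, he]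
    decide +kernel)
  have f6 := hfull (fun M => ind M s(3, 6) + ind M s(4, 6) + ind M s(6, 7)) deg6 (by
    simp only [mul_add, sum_add_distrib, he]
    decide +kernel)
  have f7 := hfull (fun M => ind M s(1, 7) + ind M s(6, 7) + ind M s(7, 8)) deg7 (by
    simp only [mul_add, sum_add_distrib, he]
    decide +kernel)
  have f8 := hfull (fun M => ind M s(2, 8) + ind M s(7, 8) + ind M s(8, 9)) deg8 (by
    simp only [mul_add, sum_add_distrib, he]
    decide +kernel)
  have f9 := hfull (fun M => ind M s(3, 9) + ind M s(5, 9) + ind M s(8, 9)) deg9 (by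
    simp only [mul_add, sum_add_distrib, he]
    decide +kernel)
  have ty := fun M hM => types M (f0 M hM) (f1 M hM) (f2 M hM) (f3 M hM) (f4 M hM) (f5 M hM) (f6 M hM) (f7 M hM) (f8 M hM) (f9 M hM)
  have e0 : ∑ M ∈ m.support, m M * two M s(2, 4) s(3, 6) + ∑ M ∈ m.support, m M * two M s(0, 3) s(1, 5) = 1 := by
    have := he s(2, 4)
    rw [sum_congr rfl (fun M hM => by rw [(ty M hM).2.1])] at this
    simp only [mul_add, sum_add_distrib] at this
    rw [this]
    decide +kernel
  have e1 : ∑ M ∈ m.support, m M * two M s(2, 4) s(3, 6) + ∑ M ∈ m.support, m M * two M s(0, 2) s(1, 7) = 1 := by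
    have := he s(3, 6)
    rw [sum_congr rfl (fun M hM => by rw [(ty M hM).2.2.1])] at this
    simp only [mul_add, sum_add_distrib] at this
    rw [this]
    decide +kernel
  have e2 : ∑ M ∈ m.support, m M * two M s(2, 8) s(3, 9) + ∑ M ∈ m.support, m M * two M s(0, 3) s(1, 7) = 1 := by
    have := he s(2, 8)
    rw [sum_congr rfl (fun M hM => by rw [(ty M hM).2.2.2.1])] at this
    simp only [mul_add, sum_add_distrib] at this
    rw [this]
    decide +kernel
  have e3 : ∑ M ∈ m.support, m M * two M s(2, 8) s(3, 9) + ∑ M ∈ m.support, m M * two M s(0, 2) s(1, 5) = 1 := by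
    have := he s(3, 9)
    rw [sum_congr rfl (fun M hM => by rw [(ty M hM).2.2.2.2.1])] at this
    simp only [mul_add, sum_add_distrib] at this
    rw [this]
    decide +kernel
  have e4 : ∑ M ∈ m.support, m M * two M s(0, 2) s(1, 5) + ∑ M ∈ m.support, m M * two M s(0, 2) s(1, 7) = 1 := by
    have := he s(0, 2)
    rw [sum_congr rfl (fun M hM => by rw [(ty M hM).2.2.2.2.2.1])] at this
    simp only [mul_add, sum_add_distrib] at this
    rw [this]
    decide +kernel
  have e5 : ∑ M ∈ m.support, m M * two M s(2, 3) s(4, 5) + ∑ M ∈ m.support, m M * two M s(2, 3) s(4, 6) = 2 := by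
    have := he s(2, 3)
    rw [sum_congr rfl (fun M hM => by rw [(ty M hM).2.2.2.2.2.2.1])] at this
    simp only [mul_add, sum_add_distrib] at this
    rw [this]
    decide +kernel
  have e6 : ∑ M ∈ m.support, m M * two M s(2, 3) s(4, 5) + ∑ M ∈ m.support, m M * two M s(2, 8) s(3, 9) + ∑ M ∈ m.support, m M * two M s(0, 2) s(1, 7) = 2 := by
    have := he s(4, 5)
    rw [sum_congr rfl (fun M hM => by rw [(ty M hM).2.2.2.2.2.2.2])] at this
    simp only [mul_add, sum_add_distrib] at this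
    rw [this]
    decide +kernel
  have hle : ∀ (d : Mat → ℕ) (M : Mat), M ∈ m.support → d M ≤ ∑ M ∈ m.support, m M * d M := by
    intro d M hM
    have hp : 0 < m M := Nat.pos_of_ne_zero (Finsupp.mem_support_iff.1 hM)
    exact (Nat.le_mul_of_pos_left _ hp).trans
      (single_le_sum (f := fun M => m M * d M) (fun _ _ => Nat.zero_le _) hM)
  intro M1 hM1
  have := hle (fun M => two M s(2, 3) s(4, 5)) M0 h0
  have := hle (fun M => two M s(2, 4) s(3, 6)) M0 h0
  have := hle (fun M => two M s(0, 2) s(1, 5)) M0 h0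
  have := hle (fun M => two M s(0, 3) s(1, 7)) M0 h0
  have := hle (fun M => two M s(2, 3) s(4, 6)) M1 hM1
  have := hle (fun M => two M s(2, 8) s(3, 9)) M1 hM1
  have := hle (fun M => two M s(0, 2) s(1, 7)) M1 hM1
  have := hle (fun M => two M s(0, 3) s(1, 5)) M1 hM1
  have t1 := (ty M1 hM1).1
  unfold good at g0 ⊢
  omega

section
variable (K : Type) [Field K]

theorem toric_mono (m : Mat →₀ ℕ) (c : K) :
    toricMap K G0 (monomial m c) = monomial (W m) c := by
  have h : ∀ M : Mat, (∏ e ∈ M.1, (X (some e) : MvPolynomial (Option (Sym2 (Fin 10))) K)) * X none =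
      monomial (wt M) 1 := by
    intro M
    rw [wt, monomial_add_single, pow_one, monomial_sum_one]
    rfl
  rw [toricMap, aeval_monomial, Finsupp.prod]
  simp only [h, monomial_pow, one_pow]
  rw [← monomial_sum_one, algebraMap_eq, C_mul_monomial, mul_one]
  rfl

noncomputable def lam (p : MvPolynomial Mat K) : K :=
  ∑ m ∈ p.support, if W m = W m1 ∧ ∀ M ∈ m.support, good M then coeff m p else 0

theorem lam_eq (p : MvPolynomial Mat K) (s : Finset (Mat →₀ ℕ)) (hs : p.support ⊆ s) :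
    lam K p = ∑ m ∈ s, if W m = W m1 ∧ ∀ M ∈ m.support, good M then coeff m p else 0 := by
  refine sum_subset hs fun m _ hm => ?_
  rw [notMem_support_iff.1 hm, ite_self]

theorem lam_add (p q : MvPolynomial Mat K) : lam K (p + q) = lam K p + lam K q := by
  rw [lam_eq K (p + q) (p.support ∪ q.support) support_add, lam_eq K p _ subset_union_left,
    lam_eq K q _ subset_union_right, ← sum_add_distrib]
  refine sum_congr rfl fun m _ => ?_
  split_ifs <;> simp

theorem lam_mono (m : Mat →₀ ℕ) (c : K) :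
    lam K (monomial m c) = if W m = W m1 ∧ ∀ M ∈ m.support, good M then c else 0 := by
  rw [lam_eq K _ {m} support_monomial_subset, sum_singleton, coeff_monomial, if_pos rfl]

theorem lam_zero : lam K 0 = 0 := by simp [lam]

theorem lam_sum {ι : Type} (s : Finset ι) (f : ι → MvPolynomial Mat K) :
    lam K (∑ i ∈ s, f i) = ∑ i ∈ s, lam K (f i) := by
  classical
  induction s using Finset.induction_on with
  | empty => simp [lam_zero]
  | insert a s ha ih => rw [sum_insert ha, sum_insert ha, lam_add, ih]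

theorem lam_gen (f : MvPolynomial Mat K) (hf : toricMap K G0 f = 0) (hd : f.totalDegree ≤ 4)
    (g : MvPolynomial Mat K) : lam K (g * f) = 0 := by
  induction g using MvPolynomial.induction_on' with
  | add p q hp hq => rw [add_mul, lam_add, hp, hq, add_zero]
  | monomial u c =>
    have e : monomial u c * f = ∑ m ∈ f.support, monomial (u + m) (c * coeff m f) := by
      conv_lhs => rw [f.as_sum, mul_sum]
      simp only [monomial_mul]
    rw [e, lam_sum]
    simp only [lam_mono]
    by_cases hu : u = 0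
    · refine sum_eq_zero fun m hm => if_neg fun h => ?_
      have h1 := le_totalDegree hm
      have h2 : W m none = 5 := by rw [← W1_none, ← h.1, hu, zero_add]
      rw [W_none] at h2
      have h3 : (m.sum fun _ e => e) = 5 := h2
      omega
    · obtain ⟨M0, hM0⟩ := Finsupp.support_nonempty_iff.2 hu
      have hin : ∀ m : Mat →₀ ℕ, M0 ∈ (u + m).support := by
        intro m
        have := Finsupp.mem_support_iff.1 hM0
        rw [Finsupp.mem_support_iff, Finsupp.add_apply]
        omega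
      by_cases g0 : good M0
      · have h1 : coeff (W m1) (toricMap K G0 (monomial u c * f)) = 0 := by
          rw [map_mul, hf, mul_zero, coeff_zero]
        rw [e, map_sum, coeff_sum] at h1
        refine Eq.trans (sum_congr rfl fun m _ => ?_) h1
        rw [toric_mono, coeff_monomial]
        by_cases hw : W (u + m) = W m1
        · rw [if_pos hw, if_pos ⟨hw, closed _ hw M0 (hin m) g0⟩]
        · rw [if_neg hw, if_neg fun h => hw h.1]
      · exact sum_eq_zero fun m _ => if_neg fun h => g0 (h.2 M0 (hin m))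

end

theorem result : ∃ (n : ℕ) (G : SimpleGraph (Fin n)), ∀ (K : Type) [Field K],
    ∀ S : Set (MvPolynomial {M : Finset (Sym2 (Fin n)) // IsMat G M} K),
      Ideal.span S = RingHom.ker (toricMap K G) → ∃ f ∈ S, 5 ≤ f.totalDegree := by
  refine ⟨10, G0, fun K _ S hS => ?_⟩
  by_contra hc
  push Not at hc
  have key : ∀ p ∈ Ideal.span S, ∀ g, lam K (g * p) = 0 := by
    intro p hp
    induction hp using Submodule.span_induction with
    | mem f hf =>
      have : f ∈ RingHom.ker (toricMap K G0) := hS ▸ Ideal.subset_span hf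
      exact lam_gen K f this (Nat.lt_succ_iff.1 (hc f hf))
    | zero => intro g; rw [mul_zero, lam_zero]
    | add p q _ _ hp hq => intro g; rw [mul_add, lam_add, hp, hq, add_zero]
    | smul a p _ hp => intro g; rw [smul_eq_mul, ← mul_assoc]; exact hp _
  have hm : (monomial m1 (1 : K) + monomial m2 (-1 : K)) ∈ Ideal.span S := by
    rw [hS, RingHom.mem_ker, map_add, toric_mono, toric_mono, W21, ← map_add]
    simp
  have h := key _ hm 1
  have g0 : good P0 := by decide +kernel
  have n1 : ¬ good P1 := by decide +kernel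
  have i0 : P0 ∈ m1.support := by
    rw [Finsupp.mem_support_iff]
    simp [m1]
  have i1 : P1 ∈ m2.support := by
    rw [Finsupp.mem_support_iff]
    simp [m2]
  rw [one_mul, lam_add, lam_mono, lam_mono, if_pos ⟨rfl, closed _ rfl P0 i0 g0⟩,
    if_neg fun h => n1 (h.2 P1 i1)] at h
  simp at h

end Pool.Agent.Results.MP_2a9801_co.DegreeFive
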